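import Pool.Agent.TH809.TP.Poly

set_option autoImplicit false

/-!
Generating functions of polynomial sequences, and their values.
-/

namespace Pool.Agent.X206.TPG

open Polynomial Finset

/-- numerator of the generating function of `(k - c) a_k`, if `W / (1 - X)^(n+1)` is that of `a_k` -/
noncomputable def op (c : ℝ) (W : ℝ[X]) (n : ℕ) : ℝ[X] :=
  X * (1 - X) * derivative W + (C ((n : ℝ) + 1) * X - C c * (1 - X)) * W

/-- `W / (1 - X)^(n+1)` is the generating function of `a` -/
def GF (a : ℕ → ℝ) (W : ℝ[X]) (n : ℕ) : Prop :=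
  PowerSeries.mk a * (1 - PowerSeries.X) ^ (n + 1) = (W : PowerSeries ℝ)

theorem mk_step (a : ℕ → ℝ) (c : ℝ) :
    PowerSeries.mk (fun k => ((k : ℝ) - c) * a k) =
      PowerSeries.X * PowerSeries.derivative ℝ (PowerSeries.mk a) - PowerSeries.C c * PowerSeries.mk a := by
  ext k
  rw [map_sub, PowerSeries.coeff_C_mul, PowerSeries.coeff_mk, PowerSeries.coeff_mk]
  rcases k with _ | k
  · simp
  · rw [PowerSeries.coeff_succ_X_mul, PowerSeries.coeff_derivative, PowerSeries.coeff_mk]
    push_cast
    ring

theorem GF.step {a : ℕ → ℝ} {W : ℝ[X]} {n : ℕ} (h : GF a W n) (c : ℝ) :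
    GF (fun k => ((k : ℝ) - c) * a k) (op c W n) (n + 1) := by
  unfold GF at h ⊢
  rw [mk_step]
  unfold op
  push_cast
  set S := PowerSeries.mk a
  have h2 : PowerSeries.derivative ℝ (S * (1 - PowerSeries.X) ^ (n + 1)) =
      PowerSeries.derivative ℝ (W : PowerSeries ℝ) := by rw [h]
  rw [Derivation.leibniz, Derivation.leibniz_pow, map_sub] at h2
  simp only [PowerSeries.derivative_X, smul_eq_mul, PowerSeries.derivative_coe, nsmul_eq_mul] at h2
  rw [Derivation.map_one_eq_zero] at h2
  have h3 : (PowerSeries.C ((n : ℝ) + 1) : PowerSeries ℝ) = (n : PowerSeries ℝ) + 1 := by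
    rw [map_add, map_one, map_natCast]
  rw [h3]
  simp only [Nat.add_sub_cancel] at h2
  push_cast at h2
  linear_combination (PowerSeries.X * (1 - PowerSeries.X)) * h2 +
    (((n : PowerSeries ℝ) + 1) * PowerSeries.X - PowerSeries.C c * (1 - PowerSeries.X)) * h

theorem GF.eq {a : ℕ → ℝ} {W : ℝ[X]} {n : ℕ} (h : GF a W n) :
    PowerSeries.mk a = (W : PowerSeries ℝ) * (PowerSeries.mk 1) ^ (n + 1) := by
  unfold GF at h
  rw [← h, mul_assoc, ← mul_pow, mul_comm (1 - PowerSeries.X), PowerSeries.mk_one_mul_one_sub_eq_one,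
    one_pow, mul_one]

/-- value of a power series, with absolute summability -/
def PS (S : PowerSeries ℝ) (x A : ℝ) : Prop :=
  Summable (fun k => ‖PowerSeries.coeff k S * x ^ k‖) ∧ ∑' k, PowerSeries.coeff k S * x ^ k = A

theorem PS.mul {S T : PowerSeries ℝ} {x A B : ℝ} (h1 : PS S x A) (h2 : PS T x B) :
    PS (S * T) x (A * B) := by
  obtain ⟨h1a, h1b⟩ := h1
  obtain ⟨h2a, h2b⟩ := h2
  have e : ∀ k, PowerSeries.coeff k (S * T) * x ^ k = ∑ kl ∈ HasAntidiagonal.antidiagonal k,
      (fun i => PowerSeries.coeff i S * x ^ i) kl.1 * (fun i => PowerSeries.coeff i T * x ^ i) kl.2 := by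
    intro k
    rw [PowerSeries.coeff_mul, Finset.sum_mul]
    refine Finset.sum_congr rfl fun p hp => ?_
    have h := HasAntidiagonal.mem_antidiagonal.1 hp
    rw [← h, pow_add]
    ring
  have s1 := summable_norm_sum_mul_antidiagonal_of_summable_norm (f := fun i => PowerSeries.coeff i S * x ^ i)
    (g := fun i => PowerSeries.coeff i T * x ^ i) h1a h2a
  have s2 := tsum_mul_tsum_eq_tsum_sum_antidiagonal_of_summable_norm (f := fun i => PowerSeries.coeff i S * x ^ i)
    (g := fun i => PowerSeries.coeff i T * x ^ i) h1a h2a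
  constructor
  · exact s1.congr fun k => by rw [e k]
  · rw [tsum_congr e, ← s2, h1b, h2b]

theorem PS.poly (W : ℝ[X]) (x : ℝ) : PS (W : PowerSeries ℝ) x (W.eval x) := by
  have hs : ∀ k ∉ range (W.natDegree + 1), PowerSeries.coeff k (W : PowerSeries ℝ) * x ^ k = 0 := by
    intro k hk
    rw [Polynomial.coeff_coe, Polynomial.coeff_eq_zero_of_natDegree_lt (by
      simp only [Finset.mem_range] at hk; omega), zero_mul]
  constructor
  · refine summable_of_ne_finset_zero (s := range (W.natDegree + 1)) fun k hk => ?_
    rw [hs k hk, norm_zero]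
  · rw [tsum_eq_sum hs, Polynomial.eval_eq_sum_range]
    refine Finset.sum_congr rfl fun k _ => ?_
    rw [Polynomial.coeff_coe]

theorem PS.ones {x : ℝ} (hx : |x| < 1) : PS (PowerSeries.mk 1) x (1 / (1 - x)) := by
  constructor
  · have := summable_geometric_of_lt_one (abs_nonneg x) hx
    refine this.congr fun k => ?_
    simp
  · have : ∀ k, PowerSeries.coeff k (PowerSeries.mk (1 : ℕ → ℝ)) * x ^ k = x ^ k := by
      intro k; simp
    simp only [this]
    rw [tsum_geometric_of_abs_lt_one hx, one_div]

theorem PS.pow {S : PowerSeries ℝ} {x A : ℝ} (h : PS S x A) (n : ℕ) : PS (S ^ (n + 1)) x (A ^ (n + 1)) := by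
  induction n with
  | zero => simpa using h
  | succ n ih =>
    rw [pow_succ, pow_succ A]
    exact ih.mul h

/-- the value of the generating function at `-t` -/
noncomputable def Fw (W : ℝ[X]) (n : ℕ) (t : ℝ) : ℝ := W.eval (-t) / (1 + t) ^ (n + 1)

theorem GF.value {a : ℕ → ℝ} {W : ℝ[X]} {n : ℕ} (h : GF a W n) {t : ℝ} (h0 : 0 ≤ t) (h1 : t < 1) :
    Summable (fun k => |a k * (-t) ^ k|) ∧ ∑' k, a k * (-t) ^ k = Fw W n t := by
  have hx : |(-t)| < 1 := by rw [abs_neg, abs_of_nonneg h0]; exact h1
  have := (PS.poly W (-t)).mul ((PS.ones hx).pow n)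
  rw [← h.eq] at this
  unfold PS at this
  simp only [PowerSeries.coeff_mk, Real.norm_eq_abs] at this
  refine ⟨this.1, ?_⟩
  rw [this.2]
  unfold Fw
  rw [sub_neg_eq_add, div_pow, one_pow]
  ring

/-! ### total positivity -/

open Pool.Agent.TH809.TP

theorem TP_ones (m : ℕ) : TP m (fun _ => (1 : ℝ)) := by
  have key : ∀ k : ℕ, ∀ r c : Fin k → ℕ, StrictMono r → StrictMono c →
      0 ≤ mnr (fun _ => (1 : ℝ)) r c := by
    intro k
    induction k with
    | zero => intro r c _ _; simp [mnr]
    | succ k ih =>
      intro r c hr hc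
      by_cases h0 : c 0 < r 0
      · have : mnr (fun _ => (1 : ℝ)) r c = 0 := by
          unfold mnr
          refine Matrix.det_eq_zero_of_column_eq_zero 0 fun i => ?_
          have := hr.monotone (Fin.zero_le i)
          simp only [Matrix.of_apply, ent]
          rw [if_neg (by omega)]
        rw [this]
      · rcases k with _ | k
        · unfold mnr
          rw [Matrix.det_fin_one]
          simp only [Matrix.of_apply, ent]
          rw [if_pos (by omega)]
          norm_num
        · by_cases h1 : r 1 ≤ c 0
          · have : mnr (fun _ => (1 : ℝ)) r c = 0 := by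
              unfold mnr
              refine Matrix.det_zero_of_row_eq (i := 0) (j := 1) (by simp) ?_
              funext q
              have h2 := hc.monotone (Fin.zero_le q)
              simp only [Matrix.of_apply, ent]
              rw [if_pos (by omega), if_pos (by omega)]
            rw [this]
          · unfold mnr
            rw [Matrix.det_succ_column_zero, Fin.sum_univ_succ]
            have hz : ∑ i : Fin (k + 1), (-1 : ℝ) ^ ((i.succ : Fin (k + 2)) : ℕ) *
                (Matrix.of fun p q => ent (fun _ => (1 : ℝ)) (r p) (c q)) i.succ 0 *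
                ((Matrix.of fun p q => ent (fun _ => (1 : ℝ)) (r p) (c q)).submatrix
                  i.succ.succAbove Fin.succ).det = 0 := by
              refine Finset.sum_eq_zero fun i _ => ?_
              have h2 : r 1 ≤ r i.succ := hr.monotone (by
                rw [Fin.le_def]; simp)
              simp only [Matrix.of_apply, ent]
              rw [if_neg (by omega)]
              simp
            rw [hz, add_zero]
            simp only [Fin.val_zero, pow_zero, one_mul, Matrix.of_apply]
            have h3 : ent (fun _ => (1 : ℝ)) (r 0) (c 0) = 1 := by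
              unfold ent; rw [if_pos (by omega)]
            rw [h3, one_mul]
            have := ih (fun p => r p.succ) (fun q => c q.succ)
              (fun x y hxy => hr (Fin.succ_lt_succ_iff.2 hxy)) (fun x y hxy => hc (Fin.succ_lt_succ_iff.2 hxy))
            unfold mnr at this
            convert this using 2
            ext p q
            simp [Matrix.submatrix_apply, Matrix.of_apply]
  exact fun k _ r c hr hc => key k r c hr hc

theorem TP_mk_pow (m n : ℕ) : TP m (fun k => PowerSeries.coeff k ((PowerSeries.mk (1 : ℕ → ℝ)) ^ (n + 1))) := by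
  induction n with
  | zero =>
    convert TP_ones m using 2
    simp
  | succ n ih =>
    have := ih.conv (TP_ones m)
    convert this using 2 with k
    rw [pow_succ, PowerSeries.coeff_mul]
    unfold conv
    simp

theorem GF.tp {a : ℕ → ℝ} {W : ℝ[X]} {n m : ℕ} (h : GF a W n) (hW : TP m W.coeff) : TP m a := by
  have h1 := hW.conv (TP_mk_pow m n)
  convert h1 using 1
  funext k
  have := congrArg (PowerSeries.coeff k) h.eq
  rw [PowerSeries.coeff_mk, PowerSeries.coeff_mul] at this
  rw [this]
  unfold conv
  simp [Polynomial.coeff_coe]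

/-- polynomials with nonpositive roots -/
theorem TP_prod {ι : Type*} (s : Finset ι) (r : ι → ℝ) (hr : ∀ i ∈ s, 0 ≤ r i) {c : ℝ} (hc : 0 ≤ c) (m : ℕ) :
    TP m (C c * ∏ i ∈ s, (X + C (r i)) : ℝ[X]).coeff := by
  classical
  induction s using Finset.induction_on with
  | empty =>
    rw [Finset.prod_empty, mul_one]
    exact TP_const hc m
  | insert i s hi ih =>
    rw [Finset.prod_insert hi]
    have h1 := ih fun j hj => hr j (Finset.mem_insert_of_mem hj)
    have h2 := TP_lin (hr i (Finset.mem_insert_self i s)) zero_le_one m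
    rw [← lin_coeff] at h2
    have h3 := h1.conv h2
    rw [conv_coeff] at h3
    convert h3 using 2
    rw [C_1]
    ring

/-- all minors of the lower triangular Toeplitz matrix are nonnegative -/
theorem lower_of_TP {a : ℕ → ℝ} (h : ∀ m, TP m a) {m : ℕ} (r c : Fin m → ℕ) (hr : StrictMono r)
    (hc : StrictMono c) : 0 ≤ (Matrix.of fun p q => if c q ≤ r p then a (r p - c q) else 0).det := by
  have := h m m le_rfl c r hc hr
  unfold mnr at this
  rw [← Matrix.det_transpose] at this
  convert this using 2
  ext p q
  simp only [Matrix.of_apply, Matrix.transpose_apply, ent]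

end Pool.Agent.X206.TPG
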