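import Pool.Agent.X206.TPG.A

set_option autoImplicit false

/-!
Alternation of signs and the operators `t d/dt - c`.
-/

namespace Pool.Agent.X206.TPG

open Polynomial Finset Filter Topology

theorem hasDerivAt_G (c : ℝ) (W : ℝ[X]) (n : ℕ) {t : ℝ} (ht : 0 < t) :
    HasDerivAt (fun t : ℝ => t ^ (-c) * Fw W n t) (t ^ (-c - 1) * Fw (op c W n) (n + 1) t) t := by
  have h1 : HasDerivAt (fun t : ℝ => W.eval (-t)) (-(derivative W).eval (-t)) t := by
    have := (W.hasDerivAt (-t)).comp t (hasDerivAt_neg t)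
    exact this.congr_deriv (by ring)
  have h2 : HasDerivAt (fun t : ℝ => (1 + t) ^ (n + 1)) (((n + 1 : ℕ) : ℝ) * (1 + t) ^ n) t := by
    have := ((hasDerivAt_id t).const_add 1).pow (n + 1)
    exact this.congr_deriv (by simp)
  have hp : (1 + t) ≠ 0 := by positivity
  have h3 := h1.div h2 (pow_ne_zero (n + 1) hp)
  have h4 := (Real.hasDerivAt_rpow_const (x := t) (p := -c) (Or.inl ht.ne')).mul h3
  have e : t ^ (-c) = t ^ (-c - 1) * t := by
    rw [← Real.rpow_add_one ht.ne']; ring_nf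
  refine h4.congr_deriv ?_
  simp only [Pi.div_apply]
  rw [e]
  unfold Fw op
  simp only [eval_add, eval_mul, eval_sub, eval_X, eval_C, eval_one]
  push_cast
  field_simp
  ring

theorem mvt {c : ℝ} {W : ℝ[X]} {n : ℕ} {s y y' : ℝ} (hy : 0 < y) (hyy : y < y')
    (h : 0 < s * (y' ^ (-c) * Fw W n y' - y ^ (-c) * Fw W n y)) :
    ∃ z, y < z ∧ z < y' ∧ 0 < s * Fw (op c W n) (n + 1) z := by
  obtain ⟨z, hz, he⟩ := exists_hasDerivAt_eq_slope (fun t : ℝ => t ^ (-c) * Fw W n t)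
    (fun t : ℝ => t ^ (-c - 1) * Fw (op c W n) (n + 1) t) hyy
    (fun t ht => (hasDerivAt_G c W n (hy.trans_le ht.1)).continuousAt.continuousWithinAt)
    (fun t ht => hasDerivAt_G c W n (hy.trans ht.1))
  refine ⟨z, hz.1, hz.2, ?_⟩
  have hz0 : 0 < z := hy.trans hz.1
  have hp : 0 < z ^ (-c - 1) := Real.rpow_pos_of_pos hz0 _
  have hd : 0 < y' - y := by linarith
  rw [eq_div_iff hd.ne'] at he
  have h2 : 0 < s * (z ^ (-c - 1) * Fw (op c W n) (n + 1) z * (y' - y)) := by rw [he]; exact h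
  have h3 : 0 < (s * Fw (op c W n) (n + 1) z) * (z ^ (-c - 1) * (y' - y)) := by
    calc (0 : ℝ) < _ := h2
      _ = _ := by ring
  exact (pos_iff_pos_of_mul_pos h3).2 (mul_pos hp hd)

theorem mvt_sign {c : ℝ} {W : ℝ[X]} {n : ℕ} {s y y' : ℝ} (hy : 0 < y) (hyy : y < y')
    (h1 : 0 < s * Fw W n y) (h2 : 0 < -s * Fw W n y') :
    ∃ z, y < z ∧ z < y' ∧ 0 < -s * Fw (op c W n) (n + 1) z := by
  refine mvt hy hyy ?_
  have a1 := mul_pos (Real.rpow_pos_of_pos hy (-c)) h1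
  have a2 := mul_pos (Real.rpow_pos_of_pos (hy.trans hyy) (-c)) h2
  linarith

theorem decay {c : ℝ} {W : ℝ[X]} {n : ℕ} (hn : W.natDegree + 1 ≤ n) (hc : -1 ≤ c) :
    Tendsto (fun t : ℝ => t ^ (-c) * Fw W n t) atTop (𝓝 0) := by
  have h1 : Tendsto (fun t : ℝ => (X * W.comp (-X)).eval t / ((1 + X) ^ (n + 1) : ℝ[X]).eval t) atTop (𝓝 0) := by
    refine Polynomial.div_tendsto_atTop_zero_of_degree_lt _ _ ?_
    have hd : ((1 + X) ^ (n + 1) : ℝ[X]).degree = ((n + 1 : ℕ) : WithBot ℕ) := by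
      have : (1 + X : ℝ[X]) = X + C 1 := by rw [C_1]; ring
      rw [this, degree_pow, degree_X_add_C]
      simp
    rw [hd]
    refine lt_of_le_of_lt (degree_mul_le _ _) ?_
    refine lt_of_le_of_lt (add_le_add degree_X_le degree_le_natDegree) ?_
    have : (W.comp (-X)).natDegree ≤ W.natDegree := by
      refine natDegree_comp_le.trans ?_
      rw [natDegree_neg, natDegree_X, mul_one]
    have h2 : 1 + (W.comp (-X)).natDegree < n + 1 := by omega
    exact_mod_cast h2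
  have h2 := h1.norm
  rw [norm_zero] at h2
  refine squeeze_zero_norm' ?_ h2
  filter_upwards [eventually_ge_atTop (1 : ℝ)] with t ht
  rw [eval_mul, eval_X, eval_comp, eval_neg, eval_X, eval_pow, eval_add, eval_one, eval_X]
  unfold Fw
  rw [norm_mul, norm_div, norm_div, norm_mul, mul_div_assoc]
  refine mul_le_mul_of_nonneg_right ?_ (by positivity)
  rw [Real.norm_eq_abs, Real.norm_eq_abs, abs_of_pos (Real.rpow_pos_of_pos (by linarith) _),
    abs_of_pos (by linarith : (0 : ℝ) < t)]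
  calc t ^ (-c) ≤ t ^ (1 : ℝ) := Real.rpow_le_rpow_of_exponent_le ht (by linarith)
    _ = t := Real.rpow_one t

theorem mvt_last {c : ℝ} {W : ℝ[X]} {n : ℕ} {s y : ℝ} (hn : W.natDegree + 1 ≤ n) (hc : -1 ≤ c) (hy : 0 < y)
    (h1 : 0 < s * Fw W n y) : ∃ z, y < z ∧ 0 < -s * Fw (op c W n) (n + 1) z := by
  have a1 : 0 < s * (y ^ (-c) * Fw W n y) := by
    calc (0 : ℝ) < y ^ (-c) * (s * Fw W n y) := mul_pos (Real.rpow_pos_of_pos hy (-c)) h1
      _ = _ := by ring
  have h2 := (decay (c := c) hn hc).const_mul s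
  rw [mul_zero] at h2
  obtain ⟨y', hy', hyy⟩ := ((h2.eventually (gt_mem_nhds a1)).and (eventually_gt_atTop y)).exists
  obtain ⟨z, hz1, _, hz3⟩ := mvt (c := c) (W := W) (n := n) (s := -s) hy hyy (by linarith)
  exact ⟨z, hz1, hz3⟩

/-- the points `y 0 < ... < y N` are positive and the signs of `F` alternate there, beginning with that
of `σ` -/
def Alt (F : ℝ → ℝ) (σ : ℝ) (y : ℕ → ℝ) (N : ℕ) : Prop :=
  0 < y 0 ∧ (∀ i < N, y i < y (i + 1)) ∧ ∀ i ≤ N, 0 < (-1) ^ i * σ * F (y i)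

theorem Alt.pos {F : ℝ → ℝ} {σ : ℝ} {y : ℕ → ℝ} {N : ℕ} (h : Alt F σ y N) : ∀ i ≤ N, 0 < y i := by
  intro i
  induction i with
  | zero => intro _; exact h.1
  | succ i ih => intro hi; exact (ih (by omega)).trans (h.2.1 i (by omega))

theorem Alt.mid {c : ℝ} {W : ℝ[X]} {n N : ℕ} {σ : ℝ} {y : ℕ → ℝ} (h : Alt (Fw W n) σ y (N + 1)) :
    ∃ z, Alt (Fw (op c W n) (n + 1)) (-σ) z N ∧ z N < y (N + 1) := by
  have key : ∀ i, ∃ z, i ≤ N → (y i < z ∧ z < y (i + 1) ∧ 0 < -((-1) ^ i * σ) * Fw (op c W n) (n + 1) z) := by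
    intro i
    by_cases hi : i ≤ N
    · obtain ⟨z, hz⟩ := mvt_sign (c := c) (h.pos i (by omega)) (h.2.1 i (by omega)) (h.2.2 i (by omega))
        (by
          have := h.2.2 (i + 1) (by omega)
          rw [pow_succ] at this
          calc (0 : ℝ) < _ := this
            _ = _ := by ring)
      exact ⟨z, fun _ => hz⟩
    · exact ⟨0, fun h => absurd h hi⟩
  choose z hz using key
  refine ⟨z, ⟨h.1.trans (hz 0 (Nat.zero_le _)).1, fun i hi => ?_, fun i hi => ?_⟩, (hz N le_rfl).2.1⟩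
  · exact (hz i (by omega)).2.1.trans (hz (i + 1) (by omega)).1
  · calc (0 : ℝ) < _ := (hz i hi).2.2
      _ = _ := by ring

theorem Alt.step {c : ℝ} {W : ℝ[X]} {n N : ℕ} {σ : ℝ} {y : ℕ → ℝ} (h : Alt (Fw W n) σ y N)
    (hn : W.natDegree + 1 ≤ n) (hc : -1 ≤ c) (h0 : 0 < σ * Fw (op c W n) (n + 1) (y 0)) :
    ∃ z, Alt (Fw (op c W n) (n + 1)) σ z (N + 1) ∧ z 0 = y 0 := by
  have key : ∀ i, ∃ z, i ≤ N → (y i < z ∧ (i < N → z < y (i + 1)) ∧
      0 < -((-1) ^ i * σ) * Fw (op c W n) (n + 1) z) := by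
    intro i
    by_cases hi : i < N
    · obtain ⟨z, hz⟩ := mvt_sign (c := c) (h.pos i (by omega)) (h.2.1 i (by omega)) (h.2.2 i (by omega))
        (by
          have := h.2.2 (i + 1) (by omega)
          rw [pow_succ] at this
          calc (0 : ℝ) < _ := this
            _ = _ := by ring)
      exact ⟨z, fun _ => ⟨hz.1, fun _ => hz.2.1, hz.2.2⟩⟩
    · by_cases hi2 : i = N
      · subst hi2
        obtain ⟨z, hz⟩ := mvt_last (c := c) hn hc (h.pos i le_rfl) (h.2.2 i le_rfl)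
        exact ⟨z, fun _ => ⟨hz.1, fun h => absurd h hi, hz.2⟩⟩
      · exact ⟨0, fun h => absurd h (by omega)⟩
  choose z hz using key
  refine ⟨fun i => if i = 0 then y 0 else z (i - 1), ⟨?_, fun i hi => ?_, fun i hi => ?_⟩, by simp⟩
  · simpa using h.1
  · rcases i with _ | i
    · simpa using (hz 0 (Nat.zero_le _)).1
    · simp only [Nat.add_eq_zero_iff, one_ne_zero, and_false, if_false, Nat.add_sub_cancel]
      exact ((hz i (by omega)).2.1 (by omega)).trans (hz (i + 1) (by omega)).1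
  · rcases i with _ | i
    · simpa using h0
    · simp only [Nat.add_eq_zero_iff, one_ne_zero, and_false, if_false, Nat.add_sub_cancel]
      calc (0 : ℝ) < _ := (hz i (by omega)).2.2
        _ = _ := by rw [pow_succ]; ring

end Pool.Agent.X206.TPG
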