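import Pool.Agent.X206.TPG.B

set_option autoImplicit false

/-!
Dominance of one term.
-/

namespace Pool.Agent.X206.TPG

open Finset Filter Topology

/-- the ratio `k/(k+2)` -/
noncomputable def qq (k : ℕ) : ℝ := (k : ℝ) / ((k : ℝ) + 2)

/-- relative size of term `j` with respect to term `k` -/
noncomputable def rho (k j : ℕ) : ℝ := (((j : ℝ) + 1) / ((k : ℝ) + 1)) ^ 2 * qq k ^ j / qq k ^ k

theorem qq_pos {k : ℕ} (hk : 1 ≤ k) : 0 < qq k := by
  have : (1 : ℝ) ≤ k := by exact_mod_cast hk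
  unfold qq
  positivity

theorem qq_lt {k : ℕ} : qq k < 1 := by
  unfold qq
  rw [div_lt_one (by positivity)]
  linarith

theorem rho_nonneg {k : ℕ} (hk : 1 ≤ k) (j : ℕ) : 0 ≤ rho k j := by
  have := qq_pos hk
  unfold rho
  positivity

theorem rho_self {k : ℕ} (hk : 1 ≤ k) : rho k k = 1 := by
  have := qq_pos hk
  unfold rho
  rw [div_self (by positivity)]
  field_simp

theorem u_desc {k j : ℕ} (hk : 1 ≤ k) (h : k ≤ j) :
    ((j : ℝ) + 1 + 1) ^ 2 * qq k ^ (j + 1) < ((j : ℝ) + 1) ^ 2 * qq k ^ j := by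
  have hq := qq_pos hk
  have hkr : (1 : ℝ) ≤ k := by exact_mod_cast hk
  have hjr : (k : ℝ) ≤ j := by exact_mod_cast h
  rw [pow_succ (qq k), mul_comm (qq k ^ j) (qq k), ← mul_assoc]
  refine mul_lt_mul_of_pos_right ?_ (by positivity)
  unfold qq
  rw [mul_div_assoc', div_lt_iff₀ (by positivity)]
  nlinarith

theorem u_asc {k j : ℕ} (h : j < k) :
    ((j : ℝ) + 1) ^ 2 * qq k ^ j < ((j : ℝ) + 1 + 1) ^ 2 * qq k ^ (j + 1) := by
  have hk : 1 ≤ k := by omega
  have hq := qq_pos hk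
  have hjr : (j : ℝ) + 1 ≤ k := by exact_mod_cast h
  have hj0 : (0 : ℝ) ≤ j := Nat.cast_nonneg j
  rw [pow_succ (qq k), mul_comm (qq k ^ j) (qq k), ← mul_assoc]
  refine mul_lt_mul_of_pos_right ?_ (by positivity)
  unfold qq
  rw [mul_div_assoc', lt_div_iff₀ (by positivity)]
  nlinarith

theorem u_lt {k j : ℕ} (hk : 1 ≤ k) (h : j ≠ k) :
    ((j : ℝ) + 1) ^ 2 * qq k ^ j < ((k : ℝ) + 1) ^ 2 * qq k ^ k := by
  rcases lt_or_gt_of_ne h with h | h
  · have key : ∀ m : ℕ, j < m → m ≤ k → ((j : ℝ) + 1) ^ 2 * qq k ^ j < ((m : ℝ) + 1) ^ 2 * qq k ^ m := by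
      intro m hm
      induction m, hm using Nat.le_induction with
      | base => intro _; push_cast; exact u_asc h
      | succ m hm ih =>
        intro hmk
        refine (ih (by omega)).trans ?_
        push_cast
        exact u_asc (by omega)
    exact key k h le_rfl
  · have key : ∀ m : ℕ, k < m → ((m : ℝ) + 1) ^ 2 * qq k ^ m < ((k : ℝ) + 1) ^ 2 * qq k ^ k := by
      intro m hm
      induction m, hm using Nat.le_induction with
      | base => push_cast; exact u_desc hk le_rfl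
      | succ m hm ih =>
        refine lt_trans ?_ ih
        push_cast
        exact u_desc hk (by omega)
    exact key j h

theorem rho_lt {k j : ℕ} (hk : 1 ≤ k) (h : j ≠ k) : rho k j < 1 := by
  have hq := qq_pos hk
  unfold rho
  rw [div_lt_one (by positivity), div_pow, div_mul_eq_mul_div, div_lt_iff₀ (by positivity)]
  have := u_lt hk h
  linarith

theorem rho_le {k j : ℕ} (hk : 1 ≤ k) : rho k j ≤ 1 := by
  by_cases h : j = k
  · rw [h, rho_self hk]
  · exact (rho_lt hk h).le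

theorem rho_pow {k : ℕ} (hk : 1 ≤ k) (j μ : ℕ) :
    ((k : ℝ) + 1) ^ (2 * μ) * (qq k ^ μ) ^ k * rho k j ^ μ = ((j : ℝ) + 1) ^ (2 * μ) * (qq k ^ μ) ^ j := by
  have hq := qq_pos hk
  have h1 : rho k j ^ μ = ((j : ℝ) + 1) ^ (2 * μ) / ((k : ℝ) + 1) ^ (2 * μ) * (qq k ^ μ) ^ j / (qq k ^ μ) ^ k := by
    unfold rho
    rw [div_pow _ _ μ, mul_pow, ← pow_mul _ 2 μ, div_pow, ← pow_mul _ j μ, ← pow_mul _ k μ, mul_comm j μ,
      mul_comm k μ, pow_mul _ μ j, pow_mul _ μ k]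
  rw [h1]
  field_simp

theorem summable_rho {k : ℕ} (hk : 1 ≤ k) {w : ℕ → ℝ} {B : ℝ} {r : ℕ} (hw : ∀ j, |w j| ≤ B * ((j : ℝ) + 1) ^ r) :
    Summable fun j => |w j| * rho k j := by
  have hq := qq_pos hk
  have h1 : Summable fun j : ℕ => ((j : ℝ)) ^ (r + 2) * qq k ^ j :=
    summable_pow_mul_geometric_of_norm_lt_one (r + 2) (by
      rw [Real.norm_eq_abs, abs_of_pos hq]; exact qq_lt)
  have h2 := (summable_nat_add_iff 1).2 h1
  have h3 := h2.mul_left (B * (qq k)⁻¹ / (((k : ℝ) + 1) ^ 2 * qq k ^ k))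
  refine Summable.of_nonneg_of_le (fun j => mul_nonneg (abs_nonneg _) (rho_nonneg hk j)) (fun j => ?_) h3
  calc |w j| * rho k j ≤ (B * ((j : ℝ) + 1) ^ r) * rho k j :=
        mul_le_mul_of_nonneg_right (hw j) (rho_nonneg hk j)
    _ = _ := by
      unfold rho
      push_cast
      rw [pow_succ (qq k) j, pow_add]
      field_simp

theorem tendsto_rho {k : ℕ} (hk : 1 ≤ k) {w : ℕ → ℝ} {B : ℝ} {r : ℕ} (hw : ∀ j, |w j| ≤ B * ((j : ℝ) + 1) ^ r) :
    Tendsto (fun μ : ℕ => ∑' j, w j * rho k j ^ μ) atTop (𝓝 (w k)) := by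
  have h := tendsto_tsum_of_dominated_convergence (𝓕 := atTop) (f := fun (μ : ℕ) (j : ℕ) => w j * rho k j ^ μ)
    (g := fun j => if j = k then w k else 0) (bound := fun j => |w j| * rho k j)
    (summable_rho hk hw) (fun j => ?_) ?_
  · rwa [tsum_ite_eq] at h
  · by_cases hj : j = k
    · subst hj
      simp only [rho_self hk, one_pow, mul_one, if_true]
      exact tendsto_const_nhds
    · rw [if_neg hj]
      have := (tendsto_pow_atTop_nhds_zero_of_lt_one (rho_nonneg hk j) (rho_lt hk hj)).const_mul (w j)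
      rwa [mul_zero] at this
  · filter_upwards [eventually_ge_atTop 1] with μ hμ j
    rw [Real.norm_eq_abs, abs_mul, abs_of_nonneg (pow_nonneg (rho_nonneg hk j) μ)]
    refine mul_le_mul_of_nonneg_left ?_ (abs_nonneg _)
    calc rho k j ^ μ ≤ rho k j ^ 1 := pow_le_pow_of_le_one (rho_nonneg hk j) (rho_le hk) hμ
      _ = rho k j := pow_one _

/-- sign of the sum at `(k/(k+2))^μ` -/
theorem sign_at {k : ℕ} (hk : 1 ≤ k) {p : ℕ → ℝ} {B : ℝ} {r : ℕ} (hp : ∀ j, |p j| ≤ B * ((j : ℝ) + 1) ^ r)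
    (hpk : 0 < p k) :
    ∀ᶠ μ : ℕ in atTop, 0 < (-1) ^ k * ∑' j, (p j * ((j : ℝ) + 1) ^ (2 * μ)) * (-(qq k ^ μ)) ^ j := by
  have h := tendsto_rho hk (w := fun j => (-1) ^ k * ((-1) ^ j * p j)) (B := B) (r := r) (fun j => by
    rw [abs_mul, abs_mul, abs_pow, abs_pow, abs_neg, abs_one, one_pow, one_pow, one_mul, one_mul]
    exact hp j)
  have h0 : 0 < (-1 : ℝ) ^ k * ((-1) ^ k * p k) := by
    rw [← mul_assoc, ← mul_pow]
    norm_num
    exact hpk
  have hq := qq_pos hk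
  filter_upwards [h.eventually (lt_mem_nhds h0)] with μ hμ
  have e : (-1) ^ k * ∑' j, (p j * ((j : ℝ) + 1) ^ (2 * μ)) * (-(qq k ^ μ)) ^ j =
      (((k : ℝ) + 1) ^ (2 * μ) * (qq k ^ μ) ^ k) * ∑' j, (-1) ^ k * ((-1) ^ j * p j) * rho k j ^ μ := by
    rw [← tsum_mul_left, ← tsum_mul_left]
    refine tsum_congr fun j => ?_
    have := rho_pow hk j μ
    rw [neg_pow (qq k ^ μ) j]
    linear_combination (-(-1) ^ k * ((-1) ^ j * p j)) * this
  rw [e]
  exact mul_pos (by positivity) hμ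

/-- constant sign on an interval -/
theorem sign_on {L : ℕ} (hL : 1 ≤ L) {w : ℕ → ℝ} {B : ℝ} {r : ℕ} (hw : ∀ j, |w j| ≤ B * ((j : ℝ) + 1) ^ r)
    (hw0 : ∀ j, 0 ≤ w j) (hw1 : ∀ j < L, w j = 0) (hwL : 0 < w L) :
    ∀ᶠ μ : ℕ in atTop, ∀ t : ℝ, 0 < t → t ≤ qq L ^ μ →
      Summable (fun j => (w j * ((j : ℝ) + 1) ^ (2 * μ)) * (-t) ^ j) →
      0 < (-1) ^ L * ∑' j, (w j * ((j : ℝ) + 1) ^ (2 * μ)) * (-t) ^ j := by
  have h := tendsto_rho hL hw
  have hq := qq_pos hL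
  filter_upwards [h.eventually (gt_mem_nhds (show w L < 2 * w L by linarith)), eventually_ge_atTop 1]
    with μ hμ hμ1 t ht htT hs
  have hsum : Summable (fun j => w j * rho L j ^ μ) := by
    refine Summable.of_nonneg_of_le (fun j => mul_nonneg (hw0 j) (pow_nonneg (rho_nonneg hL j) μ))
      (fun j => ?_) (summable_rho hL hw)
    rw [abs_of_nonneg (hw0 j)]
    refine mul_le_mul_of_nonneg_left ?_ (hw0 j)
    calc rho L j ^ μ ≤ rho L j ^ 1 := pow_le_pow_of_le_one (rho_nonneg hL j) (rho_le hL) hμ1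
      _ = rho L j := pow_one _
  set K : ℝ := ((L : ℝ) + 1) ^ (2 * μ) * t ^ L with hK
  have hKpos : 0 < K := by positivity
  have hsL : Summable (fun j => K * (if j = L then 2 * w L else 0)) := by
    refine summable_of_ne_finset_zero (s := {L}) fun j hj => ?_
    rw [if_neg (by simpa using hj), mul_zero]
  have h1 : Summable (fun j => K * (if j = L then 2 * w L else 0) - K * (w j * rho L j ^ μ)) :=
    hsL.sub (hsum.mul_left K)
  have h2 : ∑' j, (K * (if j = L then 2 * w L else 0) - K * (w j * rho L j ^ μ)) ≤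
      ∑' j, (-1) ^ L * ((w j * ((j : ℝ) + 1) ^ (2 * μ)) * (-t) ^ j) := by
    refine h1.tsum_le_tsum (fun j => ?_) (hs.mul_left _)
    rcases lt_trichotomy j L with hj | hj | hj
    · rw [hw1 j hj, if_neg (by omega)]
      simp
    · subst hj
      rw [if_pos rfl, rho_self hL, one_pow, neg_pow t j]
      have : ((-1 : ℝ)) ^ j * (-1) ^ j = 1 := by rw [← mul_pow]; norm_num
      rw [hK]
      refine le_of_eq ?_
      linear_combination (-(w j * ((j : ℝ) + 1) ^ (2 * μ) * t ^ j)) * this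
    · rw [if_neg (by omega), mul_zero, zero_sub]
      have e1 : K * (w j * rho L j ^ μ) * (qq L ^ μ) ^ L = w j * (((j : ℝ) + 1) ^ (2 * μ) * (qq L ^ μ) ^ j) * t ^ L := by
        rw [← rho_pow hL j μ, hK]; ring
      have e2 : K * (w j * rho L j ^ μ) = w j * ((j : ℝ) + 1) ^ (2 * μ) * (qq L ^ μ) ^ (j - L) * t ^ L := by
        have hne : ((qq L ^ μ) ^ L) ≠ 0 := by positivity
        have e3 : (qq L ^ μ) ^ j = (qq L ^ μ) ^ (j - L) * (qq L ^ μ) ^ L := by
          rw [← pow_add, Nat.sub_add_cancel hj.le]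
        rw [e3] at e1
        have := mul_right_cancel₀ hne (show K * (w j * rho L j ^ μ) * (qq L ^ μ) ^ L =
          (w j * ((j : ℝ) + 1) ^ (2 * μ) * (qq L ^ μ) ^ (j - L) * t ^ L) * (qq L ^ μ) ^ L by rw [e1]; ring)
        exact this
      rw [e2]
      have h3 : t ^ (j - L) ≤ (qq L ^ μ) ^ (j - L) := pow_le_pow_left₀ ht.le htT _
      have h4 : t ^ j = t ^ (j - L) * t ^ L := by rw [← pow_add, Nat.sub_add_cancel hj.le]
      have h5 : |(-1) ^ L * (w j * ((j : ℝ) + 1) ^ (2 * μ) * (-t) ^ j)| = w j * ((j : ℝ) + 1) ^ (2 * μ) * t ^ j := by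
        rw [abs_mul, abs_pow, abs_neg, abs_one, one_pow, one_mul, abs_mul, abs_pow, abs_neg, abs_of_pos ht,
          abs_of_nonneg (mul_nonneg (hw0 j) (by positivity))]
      have h6 := neg_abs_le ((-1) ^ L * (w j * ((j : ℝ) + 1) ^ (2 * μ) * (-t) ^ j))
      rw [h5, h4] at h6
      refine le_trans ?_ h6
      rw [neg_le_neg_iff]
      have h7 : 0 ≤ w j * ((j : ℝ) + 1) ^ (2 * μ) := mul_nonneg (hw0 j) (by positivity)
      have h8 : 0 ≤ t ^ L := by positivity
      calc w j * ((j : ℝ) + 1) ^ (2 * μ) * (t ^ (j - L) * t ^ L) =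
            (w j * ((j : ℝ) + 1) ^ (2 * μ)) * t ^ (j - L) * t ^ L := by ring
        _ ≤ _ := mul_le_mul_of_nonneg_right (mul_le_mul_of_nonneg_left h3 h7) h8
  rw [hsL.tsum_sub (hsum.mul_left K), tsum_mul_left, tsum_mul_left, tsum_mul_left, tsum_ite_eq] at h2
  refine lt_of_lt_of_le ?_ h2
  rw [← mul_sub]
  exact mul_pos hKpos (by linarith)

end Pool.Agent.X206.TPG
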