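import Pool.Agent.X206.TPG.C

set_option autoImplicit false

/-!
The sequence `(k+1)^M (k-b)^2` is totally positive for large even `M`.
-/

namespace Pool.Agent.X206.TPG

open Polynomial Finset Filter Topology Pool.Agent.TH809.TP

/-- numerators for `(k+1)^(m+1)` -/
noncomputable def Vs : ℕ → ℝ[X]
  | 0 => 1
  | m + 1 => op (-1) (Vs m) (m + 1)

/-- numerators for `k (k-1) ... (k-l+1) a_k` -/
noncomputable def Ds (W : ℝ[X]) (n : ℕ) : ℕ → ℝ[X]
  | 0 => W
  | l + 1 => op (l : ℝ) (Ds W n l) (n + l)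

theorem GF_Vs (m : ℕ) : GF (fun k => ((k : ℝ) + 1) ^ (m + 1)) (Vs m) (m + 1) := by
  induction m with
  | zero =>
    have h0 : GF (fun _ => (1 : ℝ)) 1 0 := by
      unfold GF
      have := PowerSeries.mk_one_mul_one_sub_eq_one ℝ
      simp only [zero_add, pow_one, Polynomial.coe_one]
      exact this
    have := h0.step (-1)
    convert this using 1
    · funext k; ring
    · simp [Vs, op]
  | succ m ih =>
    have := ih.step (-1)
    convert this using 1
    · funext k
      ring
    · rfl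

theorem GF_Ds {a : ℕ → ℝ} {W : ℝ[X]} {n : ℕ} (h : GF a W n) (l : ℕ) :
    GF (fun k => (k.descFactorial l : ℝ) * a k) (Ds W n l) (n + l) := by
  induction l with
  | zero => simpa [Ds] using h
  | succ l ih =>
    have := ih.step (l : ℝ)
    convert this using 1
    · funext k
      rw [Nat.descFactorial_succ]
      push_cast
      by_cases hk : l ≤ k
      · rw [Nat.cast_sub hk]; ring
      · have h1 : k.descFactorial l = 0 := Nat.descFactorial_eq_zero_iff_lt.2 (by omega)
        rw [h1]; simp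
    · rfl
    · rfl

theorem natDegree_op (c : ℝ) (W : ℝ[X]) (n : ℕ) : (op c W n).natDegree ≤ W.natDegree + 1 := by
  unfold op
  have h1 : (1 - X : ℝ[X]).natDegree ≤ 1 := by
    refine (natDegree_sub_le _ _).trans ?_
    simp
  refine (natDegree_add_le _ _).trans (max_le ?_ ?_)
  · by_cases h : W.natDegree = 0
    · rw [derivative_of_natDegree_zero h, mul_zero, natDegree_zero]
      exact Nat.zero_le _
    · refine natDegree_mul_le.trans ?_
      have h2 : (X * (1 - X) : ℝ[X]).natDegree ≤ 2 := by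
        refine natDegree_mul_le.trans ?_
        rw [natDegree_X]; omega
      have h3 := natDegree_derivative_le W
      omega
  · refine natDegree_mul_le.trans ?_
    have h2 : (C ((n : ℝ) + 1) * X - C c * (1 - X) : ℝ[X]).natDegree ≤ 1 := by
      refine (natDegree_sub_le _ _).trans (max_le ((natDegree_C_mul_le _ _).trans natDegree_X_le) ?_)
      exact (natDegree_C_mul_le _ _).trans h1
    omega

theorem natDegree_Vs (m : ℕ) : (Vs m).natDegree ≤ m := by
  induction m with
  | zero => simp [Vs]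
  | succ m ih => exact (natDegree_op _ _ _).trans (by omega)

theorem Fw_continuousAt (W : ℝ[X]) (n : ℕ) {t : ℝ} (ht : 0 ≤ t) : ContinuousAt (Fw W n) t := by
  unfold Fw
  refine ContinuousAt.div ?_ ?_ (by positivity)
  · exact (W.continuous.comp continuous_neg).continuousAt
  · fun_prop

theorem GF.at_zero {a : ℕ → ℝ} {W : ℝ[X]} {n : ℕ} (h : GF a W n) : Fw W n 0 = a 0 := by
  have := (h.value le_rfl zero_lt_one).2
  rw [← this, tsum_eq_single 0]
  · simp
  · intro k hk
    simp [hk]

theorem phase1 (M : ℕ) : ∃ y : ℕ → ℝ, Alt (Fw (Vs M) (M + 1)) 1 y M := by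
  have h1 : ∀ᶠ ε : ℝ in 𝓝[>] 0, ∀ m ∈ range (M + 1), 0 < Fw (Vs m) (m + 1) ε := by
    rw [Finset.eventually_all]
    intro m _
    have h2 := (Fw_continuousAt (Vs m) (m + 1) le_rfl)
    have h3 : 0 < Fw (Vs m) (m + 1) 0 := by
      rw [(GF_Vs m).at_zero]; norm_num
    exact (h2.eventually (lt_mem_nhds h3)).filter_mono nhdsWithin_le_nhds
  obtain ⟨ε, hε, hε0⟩ := (h1.and self_mem_nhdsWithin).exists
  have hε0 : 0 < ε := hε0
  have key : ∀ m ≤ M, ∃ y : ℕ → ℝ, Alt (Fw (Vs m) (m + 1)) 1 y m ∧ y 0 = ε := by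
    intro m
    induction m with
    | zero =>
      intro _
      refine ⟨fun _ => ε, ⟨hε0, fun i hi => absurd hi (by omega), fun i hi => ?_⟩, rfl⟩
      have : i = 0 := by omega
      subst this
      have := hε 0 (by simp)
      simpa using this
    | succ m ih =>
      intro hm
      obtain ⟨y, hy, hy0⟩ := ih (by omega)
      obtain ⟨z, hz, hz0⟩ := hy.step (c := -1) (by have := natDegree_Vs m; omega) le_rfl (by
        rw [hy0, one_mul]
        exact hε (m + 1) (by simp; omega))
      exact ⟨z, hz, hz0.trans hy0⟩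
  obtain ⟨y, hy, _⟩ := key M le_rfl
  exact ⟨y, hy⟩

theorem descend {W : ℝ[X]} {n : ℕ} {T : ℝ} (l : ℕ) : ∀ (r : ℕ) (σ : ℝ) (y : ℕ → ℝ),
    Alt (Fw W n) σ y (r + l) → y (r + l) ≤ T →
    ∃ z, Alt (Fw (Ds W n l) (n + l)) ((-1) ^ l * σ) z r ∧ z r ≤ T := by
  induction l with
  | zero =>
    intro r σ y h hT
    exact ⟨y, by simpa [Ds] using h, hT⟩
  | succ l ih =>
    intro r σ y h hT
    obtain ⟨z, hz, hzT⟩ := ih (r + 1) σ y (by rwa [show r + 1 + l = r + (l + 1) by ring])
      (by rwa [show r + 1 + l = r + (l + 1) by ring])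
    obtain ⟨z', hz', hz'T⟩ := hz.mid (c := (l : ℝ))
    refine ⟨z', ?_, hz'T.le.trans hzT⟩
    convert hz' using 1
    · rfl
    · rw [pow_succ]; ring

/-- at most `L` sign changes on `(0, T]` -/
theorem few {L m : ℕ} {T : ℝ}
    (hψ : ∀ t : ℝ, 0 < t → t ≤ T → 0 < (-1) ^ L * Fw (Ds (Vs m) (m + 1) L) (m + 1 + L) t)
    {y : ℕ → ℝ} {N : ℕ} (h : Alt (Fw (Vs m) (m + 1)) 1 y N) (hN : L + 1 ≤ N) : T < y (L + 1) := by
  by_contra hc
  push Not at hc
  have h' : Alt (Fw (Vs m) (m + 1)) 1 y (1 + L) :=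
    ⟨h.1, fun i hi => h.2.1 i (by omega), fun i hi => h.2.2 i (by omega)⟩
  obtain ⟨z, hz, hzT⟩ := descend (T := T) L 1 1 y h' (by rwa [add_comm])
  have h0 := hz.2.2 0 (by omega)
  have h1 := hz.2.2 1 le_rfl
  have p1 := hψ (z 1) (hz.pos 1 le_rfl) hzT
  simp only [pow_one, mul_one, pow_zero, one_mul] at h0 h1
  nlinarith

theorem assemble {L m μ : ℕ} (hL : 1 ≤ L) (hμ1 : 1 ≤ μ) (hLm : L + 1 ≤ m) {b : ℝ} (hb0 : 0 < b)
    (hψ : ∀ t : ℝ, 0 < t → t ≤ qq L ^ μ → 0 < (-1) ^ L * Fw (Ds (Vs m) (m + 1) L) (m + 1 + L) t)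
    (hf : 0 < (-1) ^ L * Fw (Vs m) (m + 1) (qq L ^ μ))
    (hh : 0 < (-1) ^ L * Fw (op b (Vs m) (m + 1)) (m + 2) (qq L ^ μ))
    (hg : ∀ k, 1 ≤ k → k ≤ L →
      0 < (-1) ^ k * Fw (op b (op b (Vs m) (m + 1)) (m + 2)) (m + 3) (qq k ^ μ)) :
    ∃ v : ℕ → ℝ, v 0 = 0 ∧ (∀ i < m + 2, v i < v (i + 1)) ∧ ∀ i ≤ m + 2,
      0 < (-1) ^ i * Fw (op b (op b (Vs m) (m + 1)) (m + 2)) (m + 3) (v i) := by
  obtain ⟨y, hy⟩ := phase1 m
  have hqL := qq_pos hL
  have hT1 : qq L ^ μ < 1 := pow_lt_one₀ hqL.le qq_lt (by omega)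
  have hT0 : 0 < qq L ^ μ := by positivity
  have hfew := few hψ hy hLm
  have hd := natDegree_Vs m
  have hd1 := natDegree_op b (Vs m) (m + 1)
  -- alternation from `T` on
  have h0 : Alt (Fw (Vs m) (m + 1)) ((-1) ^ L) (fun i => if i = 0 then qq L ^ μ else y (L + i)) (m - L) := by
    refine ⟨by simpa using hT0, fun i hi => ?_, fun i hi => ?_⟩
    · rcases i with _ | i
      · simpa using hfew
      · simp only [Nat.add_eq_zero_iff, one_ne_zero, and_false, if_false]
        exact hy.2.1 (L + (i + 1)) (by omega)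
    · rcases i with _ | i
      · simpa using hf
      · simp only [Nat.add_eq_zero_iff, one_ne_zero, and_false, if_false]
        have := hy.2.2 (L + (i + 1)) (by omega)
        rw [pow_add] at this
        calc (0 : ℝ) < _ := this
          _ = _ := by ring
  obtain ⟨z1, hz1, hz10⟩ := h0.step (c := b) (by omega) (by linarith) (by simpa using hh)
  simp only [if_true] at hz10
  obtain ⟨z2, hz2, hz20⟩ := hz1.step (c := b) (by omega) (by linarith) (by
    rw [hz10]
    exact hg L hL le_rfl)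
  rw [hz10] at hz20
  have hGF : GF _ _ _ := ((GF_Vs m).step b).step b
  refine ⟨fun i => if i = 0 then 0 else if i < L then qq i ^ μ else z2 (i - L), by simp, fun i hi => ?_,
    fun i hi => ?_⟩
  · have hmono : ∀ k : ℕ, 1 ≤ k → qq k ^ μ < qq (k + 1) ^ μ := by
      intro k hk
      refine pow_lt_pow_left₀ ?_ (qq_pos hk).le (by omega)
      have hkr : (1 : ℝ) ≤ k := by exact_mod_cast hk
      unfold qq
      push_cast
      rw [div_lt_div_iff₀ (by positivity) (by positivity)]
      nlinarith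
    rcases Nat.eq_zero_or_pos i with h | h
    · subst h
      simp only [if_true, zero_add, one_ne_zero, if_false]
      split_ifs with h1
      · have := qq_pos (k := 1) le_rfl
        positivity
      · have : L = 1 := by omega
        subst this
        simp only [Nat.sub_self]
        rw [hz20]; exact hT0
    · beta_reduce
      rw [if_neg (show ¬ (i = 0) by omega), if_neg (show ¬ (i + 1 = 0) by omega)]
      rcases lt_trichotomy (i + 1) L with h1 | h1 | h1
      · rw [if_pos (show i < L by omega), if_pos h1]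
        exact hmono i h
      · rw [if_pos (show i < L by omega), if_neg (show ¬ (i + 1 < L) by omega), h1, Nat.sub_self, hz20, ← h1]
        exact hmono i h
      · rw [if_neg (show ¬ (i < L) by omega), if_neg (show ¬ (i + 1 < L) by omega),
          show i + 1 - L = (i - L) + 1 by omega]
        exact hz2.2.1 (i - L) (by omega)
  · rcases Nat.eq_zero_or_pos i with h | h
    · subst h
      simp only [if_true, pow_zero, one_mul]
      rw [hGF.at_zero]
      simp
      positivity
    · beta_reduce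
      rw [if_neg (by omega)]
      split_ifs with h1
      · exact hg i h h1.le
      · have := hz2.2.2 (i - L) (by omega)
        have e : (-1 : ℝ) ^ i = (-1) ^ (i - L) * (-1) ^ L := by rw [← pow_add, Nat.sub_add_cancel (by omega)]
        rw [e]
        exact this

end Pool.Agent.X206.TPG
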