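import Pool.Agent.X206.TPG.D

set_option autoImplicit false

/-!
The sequence `(k+1)^M (k-b)^2` is totally positive for large even `M`.
-/

namespace Pool.Agent.X206.TPG

open Polynomial Finset Filter Topology Pool.Agent.TH809.TP

theorem factor {W : ℝ[X]} {n K : ℕ} {v : ℕ → ℝ} (hv0 : 0 ≤ v 0) (hv : ∀ i < K, v i < v (i + 1))
    (hs : ∀ i ≤ K, 0 < (-1) ^ i * Fw W n (v i)) (hd : W.natDegree ≤ K) :
    ∃ (r : ℕ → ℝ) (c : ℝ), (∀ i ∈ range K, 0 ≤ r i) ∧ 0 ≤ c ∧ W = C c * ∏ i ∈ range K, (X + C (r i)) := by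
  have hvpos : ∀ i ≤ K, 0 ≤ v i := by
    intro i
    induction i with
    | zero => intro _; exact hv0
    | succ i ih => intro hi; exact (ih (by omega)).trans (hv i (by omega)).le
  have hs' : ∀ i ≤ K, 0 < (-1) ^ i * W.eval (-(v i)) := by
    intro i hi
    have h1 := hs i hi
    have h2 := hvpos i hi
    unfold Fw at h1
    rw [mul_div_assoc'] at h1
    exact (div_pos_iff_of_pos_right (by positivity)).1 h1
  have key : ∀ i, ∃ z, i < K → (v i < z ∧ z < v (i + 1) ∧ W.eval (-z) = 0) := by
    intro i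
    by_cases hi : i < K
    · have h1 := hs' i (by omega)
      have h2 := hs' (i + 1) (by omega)
      have hc : ContinuousOn (fun t : ℝ => (-1) ^ i * W.eval (-t)) (Set.Icc (v i) (v (i + 1))) :=
        (continuous_const.mul (W.continuous.comp continuous_neg)).continuousOn
      obtain ⟨z, hz, hz0⟩ := intermediate_value_Ioo' (hv i hi).le hc (show (0 : ℝ) ∈ _ from
        ⟨by rw [pow_succ] at h2; linarith, h1⟩)
      refine ⟨z, fun _ => ⟨hz.1, hz.2, ?_⟩⟩
      have hz0' : (-1 : ℝ) ^ i * W.eval (-z) = 0 := hz0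
      rcases mul_eq_zero.1 hz0' with h | h
      · exact absurd h (by simp)
      · exact h
    · exact ⟨0, fun h => absurd h hi⟩
  choose r hr using key
  have hrlt : ∀ i j, i < j → j < K → r i < r j := by
    intro i j hij
    induction j, hij using Nat.le_induction with
    | base =>
      intro hK
      exact (hr i (by omega)).2.1.trans (hr (i + 1) (by omega)).1
    | succ j hj ih =>
      intro hK
      exact (ih (by omega)).trans ((hr j (by omega)).2.1.trans (hr (j + 1) (by omega)).1)
  have hrpos : ∀ i < K, v 0 < r i := by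
    intro i hi
    rcases Nat.eq_zero_or_pos i with h | h
    · subst h; exact (hr 0 hi).1
    · exact (hr 0 (by omega)).1.trans (hrlt 0 i h hi)
  have hdvd : ∏ i ∈ range K, (X + C (r i)) ∣ W := by
    refine Finset.prod_dvd_of_coprime ?_ ?_
    · intro i hi j hj hij
      have hi' : i < K := by simpa using hi
      have hj' : j < K := by simpa using hj
      have : IsCoprime (X - C (-(r i))) (X - C (-(r j))) := by
        refine isCoprime_X_sub_C_of_isUnit_sub ?_
        rw [isUnit_iff_ne_zero]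
        rcases lt_or_gt_of_ne hij with h | h
        · have := hrlt i j h hj'
          intro h0; linarith
        · have := hrlt j i h hi'
          intro h0; linarith
      rw [C_neg, C_neg, sub_neg_eq_add, sub_neg_eq_add] at this
      exact this
    · intro i hi
      have h1 := (hr i (by simpa using hi)).2.2
      have := dvd_iff_isRoot.2 (show W.IsRoot (-(r i)) from h1)
      rwa [C_neg, sub_neg_eq_add] at this
  obtain ⟨Q, hQ⟩ := hdvd
  have hW0 : W ≠ 0 := by
    rintro rfl
    have := hs' 0 (Nat.zero_le _)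
    simp at this
  have hPm : (∏ i ∈ range K, (X + C (r i))).Monic := monic_prod_of_monic _ _ fun i _ => monic_X_add_C _
  have hPd : (∏ i ∈ range K, (X + C (r i))).natDegree = K := by
    rw [natDegree_prod_of_monic _ _ fun i _ => monic_X_add_C _]
    simp
  have hQ0 : Q ≠ 0 := by rintro rfl; rw [mul_zero] at hQ; exact hW0 hQ
  have hQd : Q.natDegree = 0 := by
    have h1 := natDegree_mul hPm.ne_zero hQ0
    rw [← hQ, hPd] at h1
    omega
  obtain ⟨q, hq⟩ := natDegree_eq_zero.1 hQd
  refine ⟨r, q, fun i hi => hv0.trans (hrpos i (by simpa using hi)).le, ?_, ?_⟩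
  · have h1 := hs' 0 (Nat.zero_le _)
    rw [pow_zero, one_mul, hQ, ← hq, eval_mul, eval_C, eval_prod] at h1
    have h2 : 0 < ∏ i ∈ range K, (X + C (r i)).eval (-(v 0)) := by
      refine Finset.prod_pos fun i hi => ?_
      have := hrpos i (by simpa using hi)
      rw [eval_add, eval_X, eval_C]
      linarith
    exact (pos_of_mul_pos_right h1 h2.le).le
  · rw [hQ, ← hq, mul_comm]

theorem main {L : ℕ} (hL : 1 ≤ L) {b : ℝ} (hb0 : 0 < b) (hb1 : (L : ℝ) - 1 < b) (hb2 : b < L) :
    ∀ᶠ μ : ℕ in atTop, ∀ m, TP m (fun k => ((k : ℝ) + 1) ^ (2 * μ) * ((k : ℝ) - b) ^ 2) := by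
  have e1 := sign_on hL (w := fun j => (j.descFactorial L : ℝ)) (B := 1) (r := L) (fun j => by
      rw [abs_of_nonneg (by positivity), one_mul]
      have h1 : (j.descFactorial L : ℝ) ≤ (j : ℝ) ^ L := by exact_mod_cast Nat.descFactorial_le_pow j L
      exact h1.trans (pow_le_pow_left₀ (by positivity) (by linarith) _)) (fun j => by positivity)
    (fun j hj => by
      have : j.descFactorial L = 0 := Nat.descFactorial_eq_zero_iff_lt.2 hj
      simp [this])
    (by
      have : 0 < L.descFactorial L := Nat.descFactorial_pos.2 le_rfl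
      exact_mod_cast this)
  have e2 := sign_at hL (p := fun _ => (1 : ℝ)) (B := 1) (r := 0) (fun j => by simp) one_pos
  have e3 := sign_at hL (p := fun j => (j : ℝ) - b) (B := b + 1) (r := 1) (fun j => by
      rw [pow_one]
      have : (0 : ℝ) ≤ j := Nat.cast_nonneg j
      rw [abs_le]
      constructor <;> nlinarith) (by linarith)
  have e4 : ∀ᶠ μ : ℕ in atTop, ∀ k ∈ Finset.Icc 1 L,
      0 < (-1) ^ k * ∑' j : ℕ, ((((j : ℝ) - b) * ((j : ℝ) - b)) * ((j : ℝ) + 1) ^ (2 * μ)) * (-(qq k ^ μ)) ^ j := by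
    rw [Finset.eventually_all]
    intro k hk
    rw [Finset.mem_Icc] at hk
    refine sign_at hk.1 (p := fun j => ((j : ℝ) - b) * ((j : ℝ) - b)) (B := (b + 1) ^ 2) (r := 2) (fun j => ?_) ?_
    · rw [abs_of_nonneg (mul_self_nonneg _)]
      have : (0 : ℝ) ≤ j := Nat.cast_nonneg j
      have h2 : |(j : ℝ) - b| ≤ (b + 1) * (j + 1) := by
        rw [abs_le]
        constructor <;> nlinarith
      calc ((j : ℝ) - b) * ((j : ℝ) - b) = |(j : ℝ) - b| ^ 2 := by rw [sq_abs]; ring
        _ ≤ ((b + 1) * (j + 1)) ^ 2 := pow_le_pow_left₀ (abs_nonneg _) h2 2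
        _ = _ := by ring
    · have : (k : ℝ) - b ≠ 0 := by
        intro h0
        have h1 : (k : ℝ) < L := by linarith
        have h2 : (L : ℝ) < k + 1 := by linarith
        have h3 : k < L := by exact_mod_cast h1
        have h4 : L < k + 1 := by exact_mod_cast h2
        omega
      exact mul_self_pos.2 this
  filter_upwards [e1, e2, e3, e4, eventually_ge_atTop (L + 2)] with μ h1 h2 h3 h4 hμ m'
  obtain ⟨m, hm⟩ : ∃ m, m + 1 = 2 * μ := ⟨2 * μ - 1, by omega⟩
  have hqpos : ∀ k : ℕ, 1 ≤ k → 0 < qq k ^ μ := fun k hk => pow_pos (qq_pos hk) _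
  have hqlt : ∀ k : ℕ, 1 ≤ k → qq k ^ μ < 1 := fun k hk => pow_lt_one₀ (qq_pos hk).le qq_lt (by omega)
  have g0 := GF_Vs m
  have g1 := g0.step b
  have g2 := g1.step b
  have gD := GF_Ds g0 L
  obtain ⟨v, hv0, hv1, hv2⟩ := assemble (L := L) (m := m) (μ := μ) hL (by omega) (by omega) hb0
    (fun t ht htT => by
      have hv := gD.value ht.le (htT.trans_lt (hqlt L hL))
      rw [hm] at hv
      have := h1 t ht htT (Summable.of_abs hv.1)
      rw [hv.2] at this
      rwa [hm])
    (by
      have hv := (g0.value (hqpos L hL).le (hqlt L hL)).2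
      rw [← hv, hm]
      simpa using h2)
    (by
      have hv := (g1.value (hqpos L hL).le (hqlt L hL)).2
      rw [show m + 2 = m + 1 + 1 by ring, ← hv, hm]
      exact h3)
    (fun k hk1 hkL => by
      have hv := (g2.value (hqpos k hk1).le (hqlt k hk1)).2
      rw [show m + 3 = m + 1 + 1 + 1 by ring, show m + 2 = m + 1 + 1 by ring, ← hv, hm]
      have := h4 k (Finset.mem_Icc.2 ⟨hk1, hkL⟩)
      simpa only [mul_assoc] using this)
  have hd : (op b (op b (Vs m) (m + 1)) (m + 2)).natDegree ≤ m + 2 := by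
    have a1 := natDegree_Vs m
    have a2 := natDegree_op b (Vs m) (m + 1)
    have a3 := natDegree_op b (op b (Vs m) (m + 1)) (m + 2)
    omega
  obtain ⟨r, c, hr, hc, hW⟩ := factor (by rw [hv0]) hv1 hv2 hd
  have hTP := TP_prod (range (m + 2)) r hr hc m'
  rw [← hW] at hTP
  have := g2.tp hTP
  rw [hm] at this
  convert this using 2 with k
  ring

end Pool.Agent.X206.TPG
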